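import Mathlib

set_option autoImplicit false

/-!
# Chromatic relatedness: `F ≍₂ G` does not imply `F ≍₃ G`

`F` is the paw (a triangle with a pendant edge).  `G` is connected: a vertex `z` is joined to one vertex of a
clique `K₇` and to all vertices of a shift graph `Q` which is not the union of three sets inducing
`P₄`-free graphs.  Every paw-free graph is the union of a triangle-free graph (the vertices in no triangle) and a
`P₄`-free graph (the vertices in some triangle).  So the union of three sets inducing paw-free graphs is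
the union of a `K₇`-free set and of a set which does not contain `Q`: three paw-free classes can be replaced
by two `G`-free classes.
-/

namespace Pool.Agent.Results.MP_d44e62_co.RelatedOnlyTwo

/-- `HasFreeColoring H F k`: the vertex set of `H` is the union of `k` disjoint (possibly empty) classes none
of which induces a subgraph of `H` containing `F` as an induced subgraph. -/
def HasFreeColoring {α β : Type} (H : SimpleGraph α) (F : SimpleGraph β) (k : ℕ) : Prop :=
  ∃ c : α → Fin k, ∀ i : Fin k, ¬ F.IsIndContained (H.induce {v | c v = i})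

/-- The `F`-free chromatic number `χ(H : -F)`. -/
noncomputable def freeChromaticNumber {α β : Type} (H : SimpleGraph α) (F : SimpleGraph β) : ℕ :=
  sInf {k | HasFreeColoring H F k}

/-- `F ≍ₙ G`: some finite graph `H` has `χ(H : -F) = χ(H : -G) = n`. -/
def Related {α β : Type} (n : ℕ) (F : SimpleGraph α) (G : SimpleGraph β) : Prop :=
  ∃ (V : Type) (_ : Finite V) (H : SimpleGraph V),
    freeChromaticNumber H F = n ∧ freeChromaticNumber H G = n

/-! ### Monotone paths in coloured complete graphs -/

/-- There is a path with `k` edges of colour `c` and increasing vertices which ends in `j`. -/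
def PathTo {N : ℕ} (κ : Fin N → Fin N → Fin 3) (c : Fin 3) : ℕ → Fin N → Prop
  | 0, _ => True
  | k + 1, j => ∃ i, i < j ∧ κ i j = c ∧ PathTo κ c k i

theorem pathTo_succ {N : ℕ} {κ : Fin N → Fin N → Fin 3} {c : Fin 3} :
    ∀ {k : ℕ} {j : Fin N}, PathTo κ c (k + 1) j → PathTo κ c k j
  | 0, _, _ => trivial
  | _ + 1, _, ⟨i, hi, hc, hp⟩ => ⟨i, hi, hc, pathTo_succ hp⟩

theorem exists_path (κ : Fin 513 → Fin 513 → Fin 3) : ∃ (c : Fin 3) (j : Fin 513), PathTo κ c 4 j := by
  classical
  by_contra hno
  push Not at hno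
  let sig : Fin 513 → (Fin 3 → Fin 3 → Bool) := fun j c k => decide (PathTo κ c (k + 1) j)
  have hcard : Fintype.card (Fin 3 → Fin 3 → Bool) < Fintype.card (Fin 513) := by
    simp
  obtain ⟨x, y, hxy, hs⟩ := Fintype.exists_ne_map_eq_of_card_lt sig hcard
  have key : ∀ i j : Fin 513, i < j → sig i = sig j → False := by
    intro i j hij h
    have h' : ∀ k : Fin 3, PathTo κ (κ i j) (k + 1) i ↔ PathTo κ (κ i j) (k + 1) j := by
      intro k
      have := congrFun (congrFun h (κ i j)) k
      simpa [sig] using this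
    have step : ∀ k, PathTo κ (κ i j) k i → PathTo κ (κ i j) (k + 1) j := fun k hk =>
      ⟨i, hij, rfl, hk⟩
    have p1 := step 0 trivial
    have q1 := (h' 0).2 p1
    have p2 := step 1 q1
    have q2 := (h' 1).2 p2
    have p3 := step 2 q2
    have q3 := (h' 2).2 p3
    exact hno _ _ (step 3 q3)
  rcases lt_or_gt_of_ne hxy with h | h
  · exact key x y h hs
  · exact key y x h hs.symm

/-! ### The graphs -/

/-- The vertices of the shift graph: the pairs `i < j`. -/
abbrev Pairs : Type := {q : Fin 513 × Fin 513 // q.1 < q.2}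

/-- The shift graph: `(i, j)` and `(j, k)` are adjacent. -/
def shift : SimpleGraph Pairs where
  Adj p q := p.1.2 = q.1.1 ∨ q.1.2 = p.1.1
  symm := ⟨fun _ _ h => h.symm⟩
  loopless := ⟨fun p h => by
    rcases h with h | h <;> exact absurd h (ne_of_gt p.2)⟩

theorem shift_no_triangle {p q r : Pairs} (h1 : shift.Adj p q) (h2 : shift.Adj p r)
    (h3 : shift.Adj q r) : False := by
  have hp := p.2
  have hq := q.2
  have hr := r.2
  simp only [shift, Fin.ext_iff, Fin.lt_def] at h1 h2 h3 hp hq hr
  omega

/-- The paw: the triangle `0, 1, 2` and the pendant edge `0 3`. -/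
def paw : SimpleGraph (Fin 4) := SimpleGraph.fromEdgeSet {s(0, 1), s(0, 2), s(1, 2), s(0, 3)}

/-- The vertices of `G`: the vertex `z = none`, the clique `K₇` and the shift graph. -/
abbrev Vert : Type := Option (Fin 7 ⊕ Pairs)

/-- The adjacency of `G`. -/
def adjG : Vert → Vert → Prop
  | none, some (Sum.inl i) => i = 0
  | some (Sum.inl i), none => i = 0
  | none, some (Sum.inr _) => True
  | some (Sum.inr _), none => True
  | some (Sum.inl i), some (Sum.inl j) => i ≠ j
  | some (Sum.inr p), some (Sum.inr q) => shift.Adj p q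
  | _, _ => False

/-- The graph `G`. -/
def bigG : SimpleGraph Vert where
  Adj := adjG
  symm := ⟨fun x y h => by
    rcases x with _ | (i | p) <;> rcases y with _ | (j | q) <;>
      simp_all [adjG, shift.adj_comm, ne_comm]⟩
  loopless := ⟨fun x h => by
    rcases x with _ | (i | p) <;> simp_all [adjG]⟩

theorem paw_adj_iff (i j : Fin 4) : paw.Adj i j ↔
    (i = 0 ∧ j ≠ 0) ∨ (j = 0 ∧ i ≠ 0) ∨ (i = 1 ∧ j = 2) ∨ (i = 2 ∧ j = 1) := by
  unfold paw
  rw [SimpleGraph.fromEdgeSet_adj]
  fin_cases i <;> fin_cases j <;> simp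

/-- In a paw-free class, a neighbour of a vertex of a triangle is in the triangle or it is adjacent to another
vertex of the triangle. -/
theorem no_paw {V : Type} {H : SimpleGraph V} {S : Set V}
    (hS : ¬ paw.IsIndContained (H.induce S)) {x y z u : V} (hx : x ∈ S) (hy : y ∈ S) (hz : z ∈ S)
    (hu : u ∈ S) (hxy : H.Adj x y) (hxz : H.Adj x z) (hyz : H.Adj y z) (hxu : H.Adj x u)
    (huy : u ≠ y) (huz : u ≠ z) (h1 : ¬ H.Adj y u) (h2 : ¬ H.Adj z u) : False := by
  apply hS
  have hm : ∀ i : Fin 4, (![x, y, z, u] : Fin 4 → V) i ∈ S := by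
    intro i
    fin_cases i <;> assumption
  have hadj : ∀ i j : Fin 4, H.Adj ((![x, y, z, u] : Fin 4 → V) i) ((![x, y, z, u] : Fin 4 → V) j) ↔
      paw.Adj i j := by
    have e1 := hxy.symm
    have e2 := hxz.symm
    have e3 := hyz.symm
    have e4 := hxu.symm
    have e5 : ¬ H.Adj u y := fun h => h1 h.symm
    have e6 : ¬ H.Adj u z := fun h => h2 h.symm
    intro i j
    rw [paw_adj_iff]
    fin_cases i <;> fin_cases j <;> simp [*]
  have hinj : Function.Injective (![x, y, z, u] : Fin 4 → V) := by
    have e1 := hxy.ne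
    have e2 := hxz.ne
    have e3 := hyz.ne
    have e4 := hxu.ne
    have f1 := hxy.ne.symm
    have f2 := hxz.ne.symm
    have f3 := hyz.ne.symm
    have f4 := hxu.ne.symm
    have e5 := huy.symm
    have e6 := huz.symm
    intro i j hij
    fin_cases i <;> fin_cases j <;> simp at hij ⊢ <;> contradiction
  refine ⟨⟨⟨fun i => ⟨(![x, y, z, u] : Fin 4 → V) i, hm i⟩, ?_⟩, ?_⟩⟩
  · intro i j hij
    exact hinj (Subtype.ext_iff.1 hij)
  · intro i j
    exact hadj i j

/-- In a paw-free class, no vertex of an induced `P₄` is in a triangle (we need this for the third vertex). -/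
theorem no_P4 {V : Type} {H : SimpleGraph V} {S : Set V}
    (hS : ¬ paw.IsIndContained (H.induce S)) {a b c d p q : V} (ha : a ∈ S) (hb : b ∈ S) (hc : c ∈ S)
    (hd : d ∈ S) (hp : p ∈ S) (hq : q ∈ S) (hab : H.Adj a b) (hbc : H.Adj b c) (hcd : H.Adj c d)
    (hac : ¬ H.Adj a c) (had : ¬ H.Adj a d) (hbd : ¬ H.Adj b d) (hac' : a ≠ c) (had' : a ≠ d)
    (hbd' : b ≠ d) (hcp : H.Adj c p) (hcq : H.Adj c q) (hpq : H.Adj p q) : False := by
  -- a triangle `c, d, e`
  obtain ⟨e, he, hce, hde⟩ : ∃ e ∈ S, H.Adj c e ∧ H.Adj d e := by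
    by_cases h1 : d = p
    · exact ⟨q, hq, hcq, h1 ▸ hpq⟩
    by_cases h2 : d = q
    · exact ⟨p, hp, hcp, h2 ▸ hpq.symm⟩
    by_cases h3 : H.Adj p d
    · exact ⟨p, hp, hcp, h3.symm⟩
    by_cases h4 : H.Adj q d
    · exact ⟨q, hq, hcq, h4.symm⟩
    exact (no_paw hS hc hp hq hd hcp hcq hpq hcd h1 h2 h3 h4).elim
  have hbe' : b ≠ e := by
    rintro rfl
    exact hbd hde.symm
  have hbe : H.Adj e b := by
    by_contra h
    exact no_paw hS hc hd he hb hcd hce hde hbc.symm hbd' hbe' (fun h' => hbd h'.symm) h
  have hae' : a ≠ e := by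
    rintro rfl
    exact hac hce.symm
  have hae : H.Adj e a := by
    by_contra h
    exact no_paw hS hb hc he ha hbc hbe.symm hce hab.symm hac' hae' (fun h' => hac h'.symm) h
  exact no_paw hS he hc hd ha hce.symm hde.symm hcd hae hac' had' (fun h' => hac h'.symm)
    (fun h' => had h'.symm)

/-! ### The graph `G` contains the paw and is connected -/

theorem paw_in_bigG : paw.IsIndContained bigG := by
  have hadj : ∀ i j : Fin 4,
      bigG.Adj ((![some (Sum.inl 0), some (Sum.inl 1), some (Sum.inl 2), none] : Fin 4 → Vert) i)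
        ((![some (Sum.inl 0), some (Sum.inl 1), some (Sum.inl 2), none] : Fin 4 → Vert) j) ↔
      paw.Adj i j := by
    intro i j
    rw [paw_adj_iff]
    fin_cases i <;> fin_cases j <;> simp [bigG, adjG]
  refine ⟨⟨⟨![some (Sum.inl 0), some (Sum.inl 1), some (Sum.inl 2), none], ?_⟩, ?_⟩⟩
  · intro i j hij
    fin_cases i <;> fin_cases j <;> simp at hij ⊢
  · intro i j
    exact hadj i j

theorem paw_connected : paw.Connected := by
  rw [SimpleGraph.connected_iff_exists_forall_reachable]
  refine ⟨0, fun v => ?_⟩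
  by_cases hv : v = 0
  · rw [hv]
  · exact ((paw_adj_iff 0 v).2 (Or.inl ⟨rfl, hv⟩)).reachable

theorem bigG_connected : bigG.Connected := by
  rw [SimpleGraph.connected_iff_exists_forall_reachable]
  refine ⟨none, fun v => ?_⟩
  have h0 : bigG.Reachable none (some (Sum.inl 0)) := SimpleGraph.Adj.reachable (by simp [bigG, adjG])
  rcases v with _ | (i | p)
  · rfl
  · by_cases hi : i = 0
    · rw [hi]
      exact h0
    · exact h0.trans (SimpleGraph.Adj.reachable (by simp [bigG, adjG, Ne.symm hi]))
  · exact SimpleGraph.Adj.reachable (by simp [bigG, adjG])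

/-! ### `F ≍₂ G` -/

theorem freeChromaticNumber_eq_two {α β : Type} {H : SimpleGraph α} {F : SimpleGraph β}
    (h2 : HasFreeColoring H F 2) (hF : F.IsIndContained H) [Nonempty α] :
    freeChromaticNumber H F = 2 := by
  apply le_antisymm (Nat.sInf_le h2)
  apply le_csInf ⟨2, h2⟩
  rintro k ⟨c, hc⟩
  by_contra hk
  push Not at hk
  interval_cases k
  · exact (c (Classical.arbitrary α)).elim0
  · apply hc 0
    have huniv : {v | c v = 0} = Set.univ := by
      ext v
      simp [Subsingleton.elim (c v) 0]
    rw [huniv]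
    exact hF.trans ⟨(SimpleGraph.induceUnivIso H).symm.toEmbedding⟩

/-- The colouring of `G` with the classes `{z}` and its complement. -/
def colG : Vert → Fin 2
  | none => 0
  | some _ => 1

theorem adj_inl_some {i : Fin 7} {w : Fin 7 ⊕ Pairs}
    (h : bigG.Adj (some (Sum.inl i)) (some w)) : ∃ j, w = Sum.inl j ∧ i ≠ j := by
  rcases w with j | q
  · exact ⟨j, rfl, h⟩
  · exact h.elim

theorem adj_inr_some {p : Pairs} {w : Fin 7 ⊕ Pairs}
    (h : bigG.Adj (some (Sum.inr p)) (some w)) : ∃ q, w = Sum.inr q ∧ shift.Adj p q := by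
  rcases w with j | q
  · exact h.elim
  · exact ⟨q, rfl, h⟩

theorem bigG_paw : freeChromaticNumber bigG paw = 2 := by
  refine freeChromaticNumber_eq_two ⟨colG, fun i => ?_⟩ paw_in_bigG
  rintro ⟨f⟩
  have hcol : ∀ x, colG (f x).1 = i := fun x => (f x).2
  have hadj : ∀ x y, bigG.Adj (f x).1 (f y).1 ↔ paw.Adj x y := fun x y => f.map_rel_iff
  have hinj : ∀ x y, (f x).1 = (f y).1 → x = y := fun x y h => f.injective (Subtype.ext h)
  have hsome : ∀ x, ∃ w, (f x).1 = some w := by
    intro x
    rcases hx : (f x).1 with _ | w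
    · exfalso
      have h0 : i = 0 := by
        rw [← hcol x, hx]
        rfl
      have hall : ∀ y, (f y).1 = none := by
        intro y
        have hy := hcol y
        rcases hy' : (f y).1 with _ | w
        · rfl
        · rw [hy', h0] at hy
          exact absurd hy (by simp [colG])
      have := hinj 0 1 ((hall 0).trans (hall 1).symm)
      simp at this
    · exact ⟨w, rfl⟩
  obtain ⟨w0, h0⟩ := hsome 0
  obtain ⟨w1, h1⟩ := hsome 1
  obtain ⟨w2, h2⟩ := hsome 2
  obtain ⟨w3, h3⟩ := hsome 3
  have a01 := (hadj 0 1).2 (by rw [paw_adj_iff]; simp)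
  have a02 := (hadj 0 2).2 (by rw [paw_adj_iff]; simp)
  have a12 := (hadj 1 2).2 (by rw [paw_adj_iff]; simp)
  have a03 := (hadj 0 3).2 (by rw [paw_adj_iff]; simp)
  have a13 : ¬ bigG.Adj (f 1).1 (f 3).1 := fun h => by
    have := (hadj 1 3).1 h
    rw [paw_adj_iff] at this
    simp at this
  have i13 : (f 1).1 ≠ (f 3).1 := fun h => by
    have := hinj _ _ h
    simp at this
  rw [h0, h1] at a01
  rw [h0, h2] at a02
  rw [h1, h2] at a12
  rw [h0, h3] at a03
  rw [h1, h3] at a13 i13
  rcases w0 with i0 | p0
  · obtain ⟨i1, rfl, -⟩ := adj_inl_some a01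
    obtain ⟨i3, rfl, -⟩ := adj_inl_some a03
    exact a13 (fun h => i13 (by rw [h]))
  · obtain ⟨p1, rfl, s01⟩ := adj_inr_some a01
    obtain ⟨p2, rfl, s02⟩ := adj_inr_some a02
    obtain ⟨p2', h, s12⟩ := adj_inr_some a12
    obtain rfl := Sum.inr_injective h
    exact shift_no_triangle s01 s02 s12

theorem bigG_bigG : freeChromaticNumber bigG bigG = 2 := by
  refine freeChromaticNumber_eq_two ⟨colG, fun i => ?_⟩ SimpleGraph.IsIndContained.rfl
  rintro ⟨f⟩
  -- the embedding gives an injective self-map of a finite type which is not surjective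
  have hinj : Function.Injective (fun x : Vert => (f x).1) := fun x y h =>
    f.injective (Subtype.ext h)
  have hsurj := Finite.surjective_of_injective hinj
  obtain ⟨x, hx⟩ := hsurj none
  obtain ⟨y, hy⟩ := hsurj (some (Sum.inl 0))
  have h1 : colG (f x).1 = i := (f x).2
  have h2 : colG (f y).1 = i := (f y).2
  simp only at hx hy
  rw [hx] at h1
  rw [hy] at h2
  rw [← h2] at h1
  exact absurd h1 (by simp [colG])

/-! ### `F ≍ₘ G` fails for `m ≥ 3` -/

/-- The vertex `v` is in a triangle of its class. -/
def InTriangle {V : Type} {k : ℕ} (H : SimpleGraph V) (c : V → Fin k) (v : V) : Prop :=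
  ∃ p q, c p = c v ∧ c q = c v ∧ H.Adj v p ∧ H.Adj v q ∧ H.Adj p q

theorem merge {V : Type} (H : SimpleGraph V) (k : ℕ) (h : HasFreeColoring H paw (k + 3)) :
    HasFreeColoring H bigG (k + 2) := by
  classical
  obtain ⟨c, hc⟩ := h
  -- the new colouring
  let c' : V → Fin (k + 2) := fun v =>
    if (c v : ℕ) < 3 then (if InTriangle H c v then 1 else 0)
    else ⟨(c v : ℕ) - 1, by omega⟩
  refine ⟨c', fun i => ?_⟩
  rintro ⟨f⟩
  have hcol : ∀ x, c' (f x).1 = i := fun x => (f x).2
  have hadj : ∀ x y, H.Adj (f x).1 (f y).1 ↔ bigG.Adj x y := fun x y => f.map_rel_iff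
  have hinj : ∀ x y, (f x).1 = (f y).1 → x = y := fun x y h => f.injective (Subtype.ext h)
  by_cases hi : (i : ℕ) < 2
  · -- all the vertices of the class have an old colour less than 3
    have hlt : ∀ x, (c (f x).1 : ℕ) < 3 := by
      intro x
      by_contra hge
      have h1 := hcol x
      simp only [c', if_neg hge] at h1
      rw [← h1] at hi
      simp only at hi
      omega
    by_cases htri : ∀ x, InTriangle H c (f x).1
    · -- the class `1`: there is an induced path in the shift graph
      let κ : Fin 513 → Fin 513 → Fin 3 := fun i j =>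
        if hij : i < j then ⟨c (f (some (Sum.inr ⟨(i, j), hij⟩))).1, hlt _⟩ else 0
      obtain ⟨col, v4, v3, h34, k34, v2, h23, k23, v1, h12, k12, v0, h01, k01, -⟩ := exists_path κ
      simp only [κ, dif_pos h34] at k34
      simp only [κ, dif_pos h23] at k23
      simp only [κ, dif_pos h12] at k12
      simp only [κ, dif_pos h01] at k01
      set A := some (Sum.inr (⟨(v0, v1), h01⟩ : Pairs)) with hA
      set B := some (Sum.inr (⟨(v1, v2), h12⟩ : Pairs)) with hB
      set C := some (Sum.inr (⟨(v2, v3), h23⟩ : Pairs)) with hC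
      set D := some (Sum.inr (⟨(v3, v4), h34⟩ : Pairs)) with hD
      have eC : ∀ X : Vert, (⟨(c (f X).1 : ℕ), hlt X⟩ : Fin 3) = col → c (f X).1 = c (f C).1 := by
        intro X hX
        apply Fin.ext
        have h1 := congrArg Fin.val hX
        have h2 := congrArg Fin.val k23
        simp only at h1 h2
        rw [h1, h2]
      obtain ⟨p, q, hp, hq, cp, cq, pq⟩ := htri C
      refine no_P4 (hc (c (f C).1)) (a := (f A).1) (b := (f B).1) (c := (f C).1) (d := (f D).1)
        (p := p) (q := q) (eC A k01) (eC B k12) rfl (eC D k34) hp hq ?_ ?_ ?_ ?_ ?_ ?_ ?_ ?_ ?_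
        cp cq pq
      · exact (hadj A B).2 (Or.inl rfl)
      · exact (hadj B C).2 (Or.inl rfl)
      · exact (hadj C D).2 (Or.inl rfl)
      · intro h
        have h' : v1 = v2 ∨ v3 = v0 := (hadj A C).1 h
        rcases h' with h' | h' <;> omega
      · intro h
        have h' : v1 = v3 ∨ v4 = v0 := (hadj A D).1 h
        rcases h' with h' | h' <;> omega
      · intro h
        have h' : v2 = v3 ∨ v4 = v1 := (hadj B D).1 h
        rcases h' with h' | h' <;> omega
      · intro h
        have h' := hinj _ _ h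
        simp only [hA, hC, Option.some.injEq, Sum.inr.injEq, Subtype.mk.injEq, Prod.mk.injEq] at h'
        omega
      · intro h
        have h' := hinj _ _ h
        simp only [hA, hD, Option.some.injEq, Sum.inr.injEq, Subtype.mk.injEq, Prod.mk.injEq] at h'
        omega
      · intro h
        have h' := hinj _ _ h
        simp only [hB, hD, Option.some.injEq, Sum.inr.injEq, Subtype.mk.injEq, Prod.mk.injEq] at h'
        omega
    · -- the class `0`: three vertices of the clique have the same old colour
      push Not at htri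
      obtain ⟨x, hx⟩ := htri
      have hi0 : i = 0 := by
        rw [← hcol x]
        simp only [c', if_pos (hlt x), if_neg hx]
      have hno : ∀ y, ¬ InTriangle H c (f y).1 := by
        intro y hy
        have h1 := hcol y
        simp only [c', if_pos (hlt y), if_pos hy] at h1
        rw [hi0] at h1
        exact absurd h1 (by simp)
      let g : Fin 7 → Fin 3 := fun j => ⟨c (f (some (Sum.inl j))).1, hlt _⟩
      obtain ⟨y, -, hy⟩ := Finset.exists_lt_card_fiber_of_mul_lt_card_of_maps_to
        (s := (Finset.univ : Finset (Fin 7))) (t := (Finset.univ : Finset (Fin 3))) (f := g) (n := 2)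
        (fun _ _ => Finset.mem_univ _) (by simp)
      obtain ⟨j1, j2, j3, h1, h2, h3, n12, n13, n23⟩ := Finset.two_lt_card_iff.1 hy
      simp only [Finset.mem_filter, Finset.mem_univ, true_and] at h1 h2 h3
      have e : ∀ j j' : Fin 7, g j = y → g j' = y →
          c (f (some (Sum.inl j))).1 = c (f (some (Sum.inl j'))).1 := by
        intro j j' hj hj'
        apply Fin.ext
        have := congrArg Fin.val (hj.trans hj'.symm)
        exact this
      exact hno (some (Sum.inl j1)) ⟨_, _, e j2 j1 h2 h1, e j3 j1 h3 h1,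
        (hadj _ _).2 n12, (hadj _ _).2 n13, (hadj _ _).2 n23⟩
  · -- the other classes are old classes, they do not even contain the paw
    have hcl : ∀ x, (c (f x).1 : ℕ) = i + 1 := by
      intro x
      have h1 := hcol x
      by_cases hge : (c (f x).1 : ℕ) < 3
      · exfalso
        simp only [c', if_pos hge] at h1
        apply hi
        rw [← h1]
        split_ifs <;> simp
      · simp only [c', if_neg hge] at h1
        have h2 : (c (f x).1 : ℕ) - 1 = i := congrArg Fin.val h1
        omega
    have hlt : (i : ℕ) + 1 < k + 3 := by omega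
    apply hc ⟨i + 1, hlt⟩
    obtain ⟨g⟩ := paw_in_bigG
    refine ⟨⟨⟨fun x => ⟨(f (g x)).1, Fin.ext (hcl (g x))⟩, ?_⟩, ?_⟩⟩
    · intro x y hxy
      have h3 : (f (g x)).1 = (f (g y)).1 := congrArg (fun w => w.1) hxy
      exact g.injective (hinj _ _ h3)
    · intro x y
      exact (hadj (g x) (g y)).trans g.map_rel_iff

/-- **Main result.**  There are connected graphs `F`, `G`, with `F` an induced subgraph of `G`, such that
`F ≍₂ G` holds, but `F ≍ₘ G` fails for all `m ≥ 3`. -/
theorem result : ∃ (α β : Type) (_ : Fintype α) (_ : Fintype β) (F : SimpleGraph α)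
    (G : SimpleGraph β), 2 ≤ Fintype.card α ∧ 2 ≤ Fintype.card β ∧ F.Connected ∧ G.Connected ∧
      F.IsIndContained G ∧ Related 2 F G ∧ ∀ m, 3 ≤ m → ¬ Related m F G := by
  refine ⟨Fin 4, Vert, inferInstance, inferInstance, paw, bigG, by simp, ?_, paw_connected,
    bigG_connected, paw_in_bigG, ⟨Vert, inferInstance, bigG, bigG_paw, bigG_bigG⟩, ?_⟩
  · rw [Fintype.card_option, Fintype.card_sum, Fintype.card_fin]
    omega
  · rintro m hm ⟨V, _, H, h1, h2⟩
    obtain ⟨k, rfl⟩ : ∃ k, m = k + 3 := ⟨m - 3, by omega⟩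
    have hne : {k | HasFreeColoring H paw k}.Nonempty := by
      by_contra hemp
      rw [Set.not_nonempty_iff_eq_empty] at hemp
      rw [freeChromaticNumber, hemp, Nat.sInf_empty] at h1
      omega
    have hmem := Nat.sInf_mem hne
    change HasFreeColoring H paw (freeChromaticNumber H paw) at hmem
    rw [h1] at hmem
    have hle : freeChromaticNumber H bigG ≤ k + 2 := Nat.sInf_le (merge H k hmem)
    omega

end Pool.Agent.Results.MP_d44e62_co.RelatedOnlyTwo
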